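import Mathlib
import Pool.Agent.Lib.MP_9067ea_co.Def

/-!
# `k n - g(n,k)` is at most the sum of `⌊log₂ i⌋` over `i ≤ k`, for `n` large
-/

set_option autoImplicit false

namespace Pool.Agent.Results.MP_9067ea_co.LogLowerBound

open Pool.Agent.Lib.MP_9067ea_co

/-- For `k ≥ 2` and `n ≥ 3k - 1 + ∑_{i ≤ k} ⌊log₂ i⌋`,
`g(n,k) ≥ k n - ∑_{i ≤ k} ⌊log₂ i⌋`. -/
theorem result (n k : ℕ) (hk : 2 ≤ k)
    (hn : 3 * k + ∑ i ∈ Finset.Icc 1 k, Nat.log 2 i ≤ n + 1) :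
    k * n ≤ g n k + ∑ i ∈ Finset.Icc 1 k, Nat.log 2 i :=
  le_g_add hk hn

end Pool.Agent.Results.MP_9067ea_co.LogLowerBound
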