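import Mathlib
import Pool.Agent.Lib.MP_9067ea_co.Def
import Pool.Agent.Lib.MP_9067ea_co.Low32

/-!
# Lower bound `k n - 2 k √k` for the shortest words containing all `k`-permutations

`ContainsAll n k w` says that the word `w` over `Fin n` contains every `k`-permutation as a
subsequence, and `g n k` is the least length of such a word (both in
`Pool/Agent/Lib/MP_9067ea_co/Def.lean`).
-/

set_option autoImplicit false

namespace Pool.Agent.Results.MP_9067ea_co.LowerBound32

open Pool.Agent.Lib.MP_9067ea_co

/-- For all `1 ≤ k ≤ n`, `g(n,k) ≥ k n - 2 k √k`; in particular `f(n) = g(n,n) ≥ n² - 2 n^(3/2)`. -/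
theorem result (n k : ℕ) (hk : 1 ≤ k) (hkn : k ≤ n) :
    (k : ℝ) * n - 2 * k * √(k : ℝ) ≤ g n k :=
  Low.le_g hk hkn

end Pool.Agent.Results.MP_9067ea_co.LowerBound32
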