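import Mathlib
import Pool.Agent.Lib.MP_9067ea_co.Def
import Pool.Agent.Lib.MP_9067ea_co.Mono

/-!
# Monotonicity of the deficiency `kn - g(n,k)`

`ContainsAll n k w` says that the word `w` over `Fin n` contains every `k`-permutation as a
subsequence, and `g n k` is the least length of such a word (both in
`Pool/Agent/Lib/MP_9067ea_co/Def.lean`).
-/

set_option autoImplicit false

namespace Pool.Agent.Results.MP_9067ea_co.MonotoneDeficiency

open Pool.Agent.Lib.MP_9067ea_co

/-- (1) In a word over `n` letters containing all `k`-permutations (`1 ≤ k ≤ n`) at least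
`n - k + 1` letters occur at least `k` times.
(2) `g(n+1,k) ≥ g(n,k) + k` for `1 ≤ k ≤ n`.
(3) `g(n,k) ≥ g(m,k) + k(n-m)` for `1 ≤ k ≤ m ≤ n`; in particular `g(n,k) ≥ g(k,k) + k(n-k)`.
(4) For every `k ≥ 1` there is `d` with `g(n,k) = kn - d` for all large `n`. -/
theorem result :
    (∀ n k : ℕ, 1 ≤ k → k ≤ n → ∀ w : List (Fin n), ContainsAll n k w →
      n + 1 ≤ (Finset.univ.filter fun x : Fin n => k ≤ w.count x).card + k) ∧
    (∀ n k : ℕ, 1 ≤ k → k ≤ n → g n k + k ≤ g (n + 1) k) ∧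
    (∀ k m n : ℕ, 1 ≤ k → k ≤ m → m ≤ n → g m k + k * (n - m) ≤ g n k) ∧
    (∀ k : ℕ, 1 ≤ k → ∃ d N : ℕ, ∀ n, N ≤ n → g n k + d = k * n) :=
  ⟨fun _ _ hk hkn _ hw => frequent_letters hk hkn hw,
    fun _ _ hk hkn => g_succ_ge hk (by omega),
    fun _ _ _ hk hkm hmn => g_add_mul_le hk (by omega) hmn,
    fun _ hk => exists_deficiency hk⟩

end Pool.Agent.Results.MP_9067ea_co.MonotoneDeficiency
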