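import Mathlib
import Pool.Agent.Lib.MP_9067ea_co.Def
import Pool.Agent.Lib.MP_9067ea_co.SupFinal

/-!
# Superlinear saving for the shortest words containing all `k`-permutations

`ContainsAll n k w` says that the word `w` over `Fin n` contains every `k`-permutation as a
subsequence, and `g n k` is the least length of such a word (both in
`Pool/Agent/Lib/MP_9067ea_co/Def.lean`).
-/

set_option autoImplicit false

namespace Pool.Agent.Results.MP_9067ea_co.Superlinear

open Pool.Agent.Lib.MP_9067ea_co

/-- For every `c < √2` and all sufficiently large `k`, uniformly in `n ≥ k`,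
`g(n,k) ≤ k n - c k √(log₂ k)`. -/
theorem result (c : ℝ) (hc : c < √2) : ∃ K : ℕ, ∀ n k : ℕ, K ≤ k → k ≤ n →
    (g n k : ℝ) ≤ k * n - c * k * √(Real.logb 2 k) :=
  Sup.g_le_sqrt_log c hc

end Pool.Agent.Results.MP_9067ea_co.Superlinear
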